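import Pool.Agent.Lib.MP_1ffe94_lc.Alg

/-!
# MAJ-CMP is decidable in polynomial time

The problem MAJ-CMP (majority domination on complete multipartite graphs, all integers in binary)
lies in P.
-/

namespace Pool.Agent.Results.MP_1ffe94_lc.InP

open scoped Classical in
/-- The sum `f(N[v])` of `f` over the closed neighbourhood of `v`. -/
noncomputable def closedSum {V : Type} [Fintype V] (G : SimpleGraph V) (f : V → ℤ) (v : V) : ℤ :=
  f v + ∑ u with G.Adj v u, f u

/-- `f` is a majority dominating function of `G`: its values are `-1` and `1`, and at least half of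
the vertices `v` of `G` satisfy `f(N[v]) ≥ 1`. -/
def IsMDF {V : Type} [Fintype V] (G : SimpleGraph V) (f : V → ℤ) : Prop :=
  (∀ v, f v = -1 ∨ f v = 1) ∧
    (Fintype.card V : ℚ) / 2 ≤ (({v | 1 ≤ closedSum G f v} : Set V).ncard : ℚ)

/-- An instance of MAJ-CMP: positive integers `n₁, …, nₘ` (`m ≥ 1`) and a positive integer `k`. -/
structure Inst where
  /-- the sizes of the parts -/
  parts : List ℕ
  /-- the bound on the weight -/
  bound : ℕ
  parts_ne_nil : parts ≠ []
  parts_pos : ∀ n ∈ parts, 0 < n
  bound_pos : 0 < bound

/-- The complete multipartite graph of an instance. -/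
def Inst.graph (I : Inst) : SimpleGraph (Σ i : Fin I.parts.length, Fin (I.parts.get i)) :=
  SimpleGraph.completeMultipartiteGraph fun i => Fin (I.parts.get i)

/-- The yes-instances: the graph has a majority dominating function of weight at most `k`. -/
def Inst.Yes (I : Inst) : Prop :=
  ∃ f, IsMDF I.graph f ∧ ∑ v, f v ≤ (I.bound : ℤ)

/-- The encoding of instances as words over the alphabet `{0, 1, separator}` (the separator is
`none`): the binary expansions of `n₁, …, nₘ` (least significant bit first), each followed by the
separator, and then the binary expansion of `k`. -/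
def encode (I : Inst) : List (Option Bool) :=
  (I.parts.flatMap fun n => n.bits.map some ++ [none]) ++ I.bound.bits.map some

/-- MAJ-CMP with binary encoding is decided by a polynomial-time Turing machine. -/
theorem result : ∃ f : Inst → Bool, (∀ I, f I = true ↔ I.Yes) ∧
    Nonempty (Turing.TM2ComputableInPolyTime encode Computability.encodeBool f) := by
  refine ⟨fun I => MajDom.decW (PolyTime.blocks (encode I)).reverse, fun I => ?_, ?_⟩
  · exact (MajDom.decW_iff I.bound_pos).trans (MajDom.hasMDF_list I.parts_pos I.bound_pos).symm
  · exact PolyTime.PolyFn.toTM2 (F := fun w => MajDom.decW (PolyTime.blocks w).reverse)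
      (MajDom.poly_decW.comp (PolyTime.PolyFn.reverse (PolyTime.PolyFn.blocks PolyTime.PolyFn.id)))
      encode _ (fun _ => rfl)

end Pool.Agent.Results.MP_1ffe94_lc.InP
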